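import Pool.Agent.H61.KW.TC

/-!
# Kuiper board KW, row GAM: the cone is a direct sum
-/

set_option autoImplicit false

open Topology Set
open Pool.Agent.H59 Pool.Agent.H64.LB Pool.Agent.H61.KU Pool.Agent.H61.KV Pool.Agent.H61.KW

namespace Pool.Agent.H60.KW.GAM

theorem pf_GAM (h : T_SPG) (h2 : T_CLS) (h3 : T_DSB) (h4 : T_LDE) : T_GAM := by
  intro V _ _ _ m K q g a z hq hT P H
  have hC := K.cc
  have hqC := K.mem q hq
  have hq4 := K.rk4 q hq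
  have hgC := hT.mem
  have hz := P.ex
  have hzC : z ∈ Cn m := hz.1
  have haC : a ∈ Cn m := P.ds.1
  obtain ⟨haq, hzq⟩ := face hC hqC haC hzC P.mem
  have hcC : g + z ∈ Cn m := hC.add g hgC z hzC
  have hEC : g + z + a ∈ Cn m := hC.add _ hcC a haC
  have hgc : g ∈ Fc (Cn m) (g + z) := left_fc hC hgC hzC
  have hzc : z ∈ Fc (Cn m) (g + z) := right_fc hC hgC hzC
  have hcE : g + z ∈ Fc (Cn m) (g + z + a) := left_fc hC hcC haC
  have haE : a ∈ Fc (Cn m) (g + z + a) := right_fc hC hcC haC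
  -- second part
  have hall : ∀ r ∈ Cn m, r ∈ Fc (Cn m) (g + z + a) := by
    intro r hr
    have h5 : r ∈ Fc (Cn m) (q + g) := ov_mem hC K.span hqC hgC hT.ov hr
    have h6 : q ∈ Fc (Cn m) (g + z + a) :=
      tra hC hEC (add_fc hC hEC haE (tra hC hEC hcE hzc)) P.mem'
    exact tra hC hEC (add_fc hC hEC h6 (tra hC hEC hcE hgc)) h5
  -- disjointness
  have hdis : ∀ v, v ∈ Sp (Cn m) (g + z) → v ∈ Sp (Cn m) a → v = 0 := by
    intro v hv hva
    have h5 : v ∈ Sp (Cn m) q := sp_mono hC hqC haq hva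
    have h6 : v ∈ Sp (Cn m) z := h V (Cn m) q (g + z) z hC (K.ftd q hq) hcC hzC
      (fun t ht ht' => foot_face hC hqC hgC hzq hT.foot ht ht') v h5 hv
    exact P.ds.2.2.1 v hva h6
  have hc6 : rk (Cn m) (g + z) = 6 := H g hT
  have hsup : Sp (Cn m) (g + z) ⊔ Sp (Cn m) a = ⊤ := by
    have h5 : Sp (Cn m) (g + z) ⊓ Sp (Cn m) a = ⊥ := by
      rw [eq_bot_iff]
      intro v hv
      rw [Submodule.mem_bot]
      exact hdis v hv.1 hv.2
    have h6 := Submodule.finrank_sup_add_finrank_inf_eq (Sp (Cn m) (g + z)) (Sp (Cn m) a)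
    rw [h5, finrank_bot] at h6
    have h7 := P.rk3
    unfold Pool.Agent.H61.KW.rk at hc6 h7
    apply Submodule.eq_top_of_finrank_eq
    rw [K.fin]
    omega
  refine ⟨⟨hcC, haC, hdis, ?_⟩, hall⟩
  intro r hr
  have hrC : r ∈ Cn m := hr.1
  have hDcl := h2 V (Cn m) (g + z) a hC hcC haC
  obtain ⟨D, hD⟩ : ∃ D : Set V, D = {r | ∃ u ∈ Fc (Cn m) (g + z), ∃ v ∈ Fc (Cn m) a, r = u + v} :=
    ⟨_, rfl⟩
  rw [← hD] at hDcl
  suffices hrD : r ∈ D by
    rw [hD] at hrD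
    exact hrD
  by_contra hrD
  obtain ⟨c0, hc0⟩ : ∃ c0 : V, c0 = g + z + a := ⟨_, rfl⟩
  have hc0D : c0 ∈ D := by
    rw [hD]
    exact ⟨g + z, self hC hcC, a, self hC haC, hc0⟩
  have hS : IsCompact (Icc (0 : ℝ) 1 ∩ (fun θ : ℝ => (1 - θ) • c0 + θ • r) ⁻¹' D) := by
    apply isCompact_Icc.inter_right
    apply hDcl.preimage
    fun_prop
  have hne : (Icc (0 : ℝ) 1 ∩ (fun θ : ℝ => (1 - θ) • c0 + θ • r) ⁻¹' D).Nonempty := by
    refine ⟨0, ⟨le_refl 0, zero_le_one⟩, ?_⟩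
    simp only [mem_preimage, sub_zero, one_smul, zero_smul, add_zero]
    exact hc0D
  obtain ⟨θ, ⟨hθ01, hθD⟩, hmax⟩ := hS.exists_isGreatest hne
  have hθ1 : θ < 1 := by
    rcases hθ01.2.eq_or_lt with h5 | h5
    · exfalso
      apply hrD
      rw [h5] at hθD
      simpa using hθD
    · exact h5
  have hθpos : 0 < 1 - θ := by linarith
  rw [mem_preimage] at hθD
  obtain ⟨d, hd⟩ : ∃ d : V, d = (1 - θ) • c0 + θ • r := ⟨_, rfl⟩
  have hθD' : d ∈ D := by rw [hd]; exact hθD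
  rw [hD] at hθD'
  obtain ⟨u, hu, v, hv, huv⟩ := hθD'
  have huC : u ∈ Cn m := hu.1
  have hvC : v ∈ Cn m := hv.1
  have hc0C : c0 ∈ Cn m := by rw [hc0]; exact hEC
  have hdC : d ∈ Cn m := by rw [huv]; exact hC.add u huC v hvC
  have hc0d : c0 ∈ Fc (Cn m) d := by
    have h5 : (1 - θ) • c0 ∈ Fc (Cn m) d := by
      rw [hd]
      exact left_fc hC (hC.smul _ hθpos.le _ hc0C) (hC.smul _ hθ01.1 _ hrC)
    exact smul_mem hC hdC hθpos h5
  have hCd : ∀ s ∈ Cn m, s ∈ Fc (Cn m) d := by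
    intro s hs
    refine tra hC hdC hc0d ?_
    rw [hc0]
    exact hall s hs
  have hd9 : rk (Cn m) d = 9 := by
    have h5 : Sp (Cn m) d = ⊤ := by
      rw [eq_top_iff, ← K.span]
      exact Submodule.span_mono hCd
    unfold Pool.Agent.H61.KW.rk
    rw [h5, finrank_top, K.fin]
  -- the foot of `u`
  obtain ⟨f, hf⟩ := (K.ftd q hq).2 u huC
  have hfC : f ∈ Cn m := foot_memC hC hqC hf
  have huf : u - f ∈ Fc (Cn m) q := foot_dec hC hqC huC hf
  have hfu : f ∈ Fc (Cn m) u ∧ u - f ∈ Fc (Cn m) u := by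
    apply face hC huC hfC huf.1
    have h5 : f + (u - f) = u := by abel
    rw [h5]
    exact self hC huC
  have hfc : f ∈ Fc (Cn m) (g + z) := tra hC hcC hu hfu.1
  have hufz : u - f ∈ Fc (Cn m) z :=
    foot_face hC hqC hgC hzq hT.foot huf (tra hC hcC hu hfu.2)
  obtain ⟨l, hl0, hl⟩ := ex_mem hC hz hufz
  have hlz : l • z ∈ Fc (Cn m) z := by rw [← hl]; exact hufz
  have hlzq : l • z ∈ Fc (Cn m) q := by rw [← hl]; exact huf
  have hvq : v ∈ Fc (Cn m) q := tra hC hqC haq hv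
  obtain ⟨τ, hτ⟩ : ∃ τ : V, τ = v + l • z := ⟨_, rfl⟩
  have hτq : τ ∈ Fc (Cn m) q := by rw [hτ]; exact add_fc hC hqC hvq hlzq
  have hul : u = f + l • z := by rw [← hl]; abel
  have hdf : d = f + τ := by
    rw [huv, hτ]
    nth_rw 1 [hul]
    abel
  have hqf : q + f ∈ Cn m := hC.add q hqC f hfC
  have hov : Ov (Cn m) q f := by
    apply ov_of hT.ov (left_fc hC hqC hfC)
    have h5 : d ∈ Fc (Cn m) (q + f) := by
      rw [hdf]
      exact add_fc hC hqf (right_fc hC hqC hfC) (tra hC hqf (left_fc hC hqC hfC) hτq)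
    exact tra hC hqf h5 (hCd g hgC)
  have hTf : Tf m q f := ⟨hfC, foot_self hC hqC hf, hov⟩
  have hfz6 := H f hTf
  have hfzc : f + z ∈ Fc (Cn m) (g + z) := add_fc hC hcC hfc hzc
  have hcfz : g + z ∈ Fc (Cn m) (f + z) := of_rk hC hcC hfzc (by omega)
  have hτC : τ ∈ Cn m := hτq.1
  have hτ4 : 4 ≤ rk (Cn m) τ := by
    have h5 := (h4 V m K q f 0 0 τ hq hTf hτq (zero_fc hC hτC) (zero_fc hC hτC)
      (fun t ht _ => fc_of_zero hC ht)).2.2.1
    rw [← hdf, hd9] at h5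
    omega
  have hqτ : q ∈ Fc (Cn m) τ := of_rk hC hqC hτq (by omega)
  obtain ⟨-, -, -, hB4, hB5, -⟩ := h3 V (Cn m) a z hC P.ds
  have hav : a ∈ Fc (Cn m) v := by
    apply hB4 v hv (l • z) hlz a (self hC haC)
    rw [← hτ]
    exact tra hC hτC hqτ haq
  have hzl : z ∈ Fc (Cn m) (l • z) := by
    apply hB5 v hv (l • z) hlz z (self hC hzC)
    rw [← hτ]
    exact tra hC hτC hqτ hzq
  have hlpos : 0 < l := by
    rcases hl0.eq_or_lt with h5 | h5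
    · exfalso
      rw [← h5, zero_smul] at hzl
      exact hz.2.1 (fc_of_zero hC hzl)
    · exact h5
  have hFu : Fc (Cn m) u = Fc (Cn m) (g + z) := by
    have h5 := fc_add_smul hC hfC hzC (a := 1) (b := l) one_pos hlpos
    rw [one_smul, ← hul] at h5
    rw [h5]
    exact fc_eq hC hcC hfzc hcfz
  have hFv : Fc (Cn m) v = Fc (Cn m) a := fc_eq hC haC hv hav
  have hSu : Sp (Cn m) u = Sp (Cn m) (g + z) := by unfold Sp; rw [hFu]
  have hSv : Sp (Cn m) v = Sp (Cn m) a := by unfold Sp; rw [hFv]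
  obtain ⟨p1, hp1, p2, hp2, hp⟩ : ∃ p1 ∈ Sp (Cn m) (g + z), ∃ p2 ∈ Sp (Cn m) a,
      p1 + p2 = r - c0 := by
    have h5 : r - c0 ∈ Sp (Cn m) (g + z) ⊔ Sp (Cn m) a := by
      rw [hsup]
      exact Submodule.mem_top
    exact Submodule.mem_sup.1 h5
  rw [← hSu] at hp1
  rw [← hSv] at hp2
  obtain ⟨e1, he1, hr1⟩ := room hC huC hp1
  obtain ⟨e2, he2, hr2⟩ := room hC hvC hp2
  obtain ⟨δ, hδ0, hδ1, hδ2, hδ3⟩ : ∃ δ : ℝ, 0 < δ ∧ δ ≤ e1 ∧ δ ≤ e2 ∧ δ ≤ 1 - θ :=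
    ⟨min e1 (min e2 (1 - θ)), lt_min he1 (lt_min he2 hθpos), min_le_left _ _,
      (min_le_right _ _).trans (min_le_left _ _), (min_le_right _ _).trans (min_le_right _ _)⟩
  have h5 := hr1 δ hδ0.le hδ1
  have h6 := hr2 δ hδ0.le hδ2
  rw [hFu] at h5
  rw [hFv] at h6
  have h7 : θ + δ ∈ Icc (0 : ℝ) 1 ∩ (fun θ : ℝ => (1 - θ) • c0 + θ • r) ⁻¹' D := by
    refine ⟨⟨by linarith [hθ01.1], by linarith⟩, ?_⟩
    rw [mem_preimage, hD]
    refine ⟨_, h5, _, h6, ?_⟩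
    have h8 : (1 - (θ + δ)) • c0 + (θ + δ) • r = d + δ • (r - c0) := by
      rw [hd, smul_sub, sub_smul, sub_smul, add_smul, add_smul]
      abel
    rw [h8, huv, ← hp, smul_add]
    abel
  have h8 := hmax h7
  linarith

end Pool.Agent.H60.KW.GAM
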