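import Pool.Agent.H61.KW.TB

/-!
# Kuiper board KW, row N1S: no segment if all faces in `Mh m` are rays
-/

set_option autoImplicit false

open Topology Set
open Pool.Agent.H59 Pool.Agent.H64.LB Pool.Agent.H61.KU Pool.Agent.H61.KV Pool.Agent.H61.KW

namespace Pool.Agent.H60.KW.N1S

theorem pf_N1S (h : T_SCM) (h2 : T_EPT) (h3 : T_XOU) : T_N1S := by
  intro V _ _ _ m K N
  have hC := K.cc
  have hO : ∀ q r, Ef m q → r ∈ Cn m → r ∉ Fc (Cn m) q → Ov (Cn m) q r := by
    intro q r hq hr hrq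
    refine h V m K q hq ?_ r hr hrq
    intro s hs
    exact (N s hs.1.1 (K.bd q s hq hs.1 hs.2.2)).resolve_left hs.2.1
  have hcl : ∀ w ∈ Mh m, w ≠ 0 → Ex (Cn m) w := by
    intro w hw hw0
    have hwC : w ∈ Cn m := K.mhC hw
    by_contra hne
    have h5 : ¬ Fc (Cn m) w ⊆ Mh m := fun h6 => (N w hwC h6).elim hw0 hne
    obtain ⟨q, hqw, hq⟩ := K.exi w hwC h5
    have hqC := K.mem q hq
    have hq4 := K.rk4 q hq
    by_cases hwq : w ∈ Fc (Cn m) q
    · obtain ⟨t, ht, htq, -⟩ := h3 V (Cn m) {0} q hC hqC rfl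
        (by
          rintro a rfl b rfl
          exact add_zero (0 : V))
        (by
          intro h6
          rw [mem_singleton_iff.1 h6, rk_zero hC] at hq4
          omega)
      obtain ⟨p, hp, htp, h6⟩ := h2 V m K q t hq ht htq
      have hwp : w ∉ Fc (Cn m) p := by
        intro h7
        have h8 := rk_mono hC ht.1 (h6 w h7 hwq)
        rw [ex_rk hC ht] at h8
        have h9 := rk_mono hC hwC hqw
        omega
      have hT := K.ovf p w hp hw (hO p w hp hwC hwp)
      exact ht.2.1 (foot_disj hC (K.ftd p hp) hwC hT.foot (tra hC hwC hqw htq) htp)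
    · have hT := K.ovf q w hq hw (hO q w hq hwC hwq)
      have h6 := foot_disj hC (K.ftd q hq) hwC hT.foot hqw (self hC hqC)
      rw [h6, rk_zero hC] at hq4
      omega
  intro x y hxy
  refine ⟨1, 1, one_pos, one_pos, fun hM => hxy ?_⟩
  obtain ⟨e, he⟩ := K.cfg.pos
  have hm : ∀ z, m z ∈ Cn m := fun z =>
    ⟨1, m z, zero_le_one, subset_convexHull ℝ _ (mem_range_self z), (one_smul ℝ _).symm⟩
  rw [one_smul, one_smul] at hM
  have hw0 : m x + m y ≠ 0 := by
    intro h5
    have h6 := he x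
    have h7 := he y
    have h8 : e (m x + m y) = 0 := by rw [h5, map_zero]
    rw [map_add] at h8
    linarith
  obtain ⟨⟨c, hc, h5⟩, ⟨d, hd, h6⟩⟩ := ex_add hC (hcl _ hM hw0) (hm x) (hm y) rfl
  have hx0 : m x ≠ 0 := by
    intro h7
    have h8 := he x
    rw [h7, map_zero] at h8
    exact lt_irrefl _ h8
  have hy0 : m y ≠ 0 := by
    intro h7
    have h8 := he y
    rw [h7, map_zero] at h8
    exact lt_irrefl _ h8
  have hc' : 0 < c := by
    rcases hc.eq_or_lt with h7 | h7
    · exact absurd (by rw [h5, ← h7, zero_smul]) hx0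
    · exact h7
  have hd' : 0 < d := by
    rcases hd.eq_or_lt with h7 | h7
    · exact absurd (by rw [h6, ← h7, zero_smul]) hy0
    · exact h7
  refine K.cfg.inj x y (d / c) (div_pos hd' hc') ?_
  obtain ⟨w, hw⟩ : ∃ w : V, w = m x + m y := ⟨_, rfl⟩
  rw [← hw] at h5 h6
  rw [h6, h5, smul_smul, div_mul_cancel₀ _ hc'.ne']

end Pool.Agent.H60.KW.N1S
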