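import Pool.Agent.H61.KW.TA

/-!
# Kuiper board KW, row PYR: a criterion for pyramids
-/

set_option autoImplicit false

open Set Pool.Agent.H61.KV Pool.Agent.H61.KW

namespace Pool.Agent.H60.KW.PYR

section

variable {V : Type} [NormedAddCommGroup V] [NormedSpace ℝ V] [FiniteDimensional ℝ V] {C : Set V}

/-- the span of the face of an extreme vector -/
theorem sp_ex {x v : V} (hx : Ex C x) (hv : v ∈ Sp C x) : ∃ c : ℝ, v = c • x := by
  have h1 : Sp C x ≤ Submodule.span ℝ {x} := by
    refine Submodule.span_le.2 ?_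
    intro r hr
    obtain ⟨c, rfl⟩ := hx.2.2 r hr
    exact Submodule.smul_mem _ _ (Submodule.mem_span_singleton_self x)
  obtain ⟨c, hc⟩ := Submodule.mem_span_singleton.1 (h1 hv)
  exact ⟨c, hc.symm⟩

end

theorem pf_PYR : T_PYR := by
  intro V _ _ _ C q a z hC hq hr4 ha hr3 hz hzq hza H
  have haC : a ∈ C := ha.1
  have hzC : z ∈ C := hz.1
  have hqa : q ∉ Fc C a := by
    intro h
    have := rk_mono hC haC h
    omega
  obtain ⟨ξ, hξ, hξa, hξq⟩ := supp hC hq ha hqa
  -- `ξ` vanishes on the face of `a`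
  have hA : ∀ s ∈ Fc C a, ξ s = 0 := by
    intro s hs
    have h1 : s ∈ Fc C q := tra hC hq ha hs
    obtain ⟨hsC, c, hc, hcs⟩ := hs
    have h2 : c • a - s ∈ Fc C q := by
      refine (face hC hq hcs hsC ?_).1
      rw [sub_add_cancel]
      exact smul_fc hC hq hc ha
    have h3 := hξ s h1
    have h4 := hξ _ h2
    rw [map_sub, map_smul, hξa, smul_zero] at h4
    linarith
  have hSp : Sp C a ≤ Sp C q ⊓ LinearMap.ker ξ := by
    refine Submodule.span_le.2 ?_
    intro s hs
    exact ⟨mem_sp (tra hC hq ha hs), LinearMap.mem_ker.2 (hA s hs)⟩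
  have hlt : Sp C q ⊓ LinearMap.ker ξ < Sp C q := by
    refine lt_of_le_of_ne inf_le_left ?_
    intro h
    have h1 : q ∈ Sp C q ⊓ LinearMap.ker ξ := by
      rw [h]
      exact self_sp hC hq
    have h2 := LinearMap.mem_ker.1 h1.2
    linarith
  have heq : Sp C a = Sp C q ⊓ LinearMap.ker ξ := by
    apply Submodule.eq_of_le_of_finrank_le hSp
    have h1 := Submodule.finrank_lt_finrank_of_lt hlt
    unfold rk at hr4 hr3
    omega
  have hker : ∀ v ∈ Sp C q, ξ v = 0 → v ∈ Sp C a := by
    intro v hv h0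
    rw [heq]
    exact ⟨hv, LinearMap.mem_ker.2 h0⟩
  have hξz : 0 < ξ z := by
    rcases (hξ z hzq).eq_or_lt with h | h
    · exfalso
      exact hza (of_sp hC haC hzC (hker z (mem_sp hzq) h.symm))
    · exact h
  have hmem : a + z ∈ Fc C q := add_fc hC hq ha hzq
  have hmem' : q ∈ Fc C (a + z) := by
    apply of_rk hC hq hmem
    have := rk_add_ex hC haC hzC hza
    omega
  refine ⟨hr3, hz, ⟨haC, hzC, ?_, ?_⟩, hmem, hmem'⟩
  · intro v hv hvz
    obtain ⟨c, rfl⟩ := sp_ex hz hvz
    rw [heq] at hv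
    have h1 := LinearMap.mem_ker.1 hv.2
    rw [map_smul, smul_eq_mul] at h1
    rcases mul_eq_zero.1 h1 with h | h
    · rw [h, zero_smul]
    · exact absurd h hξz.ne'
  · intro r hr
    have hrC : r ∈ C := hr.1
    have hrq : r ∈ Fc C q := tra hC hq hmem hr
    have hc0 : 0 ≤ ξ r / ξ z := div_nonneg (hξ r hrq) hξz.le
    obtain ⟨c, hc⟩ : ∃ c : ℝ, c = ξ r / ξ z := ⟨_, rfl⟩
    rw [← hc] at hc0
    have hw : r - c • z ∈ Sp C a := by
      apply hker
      · exact Submodule.sub_mem _ (mem_sp hrq) (Submodule.smul_mem _ _ (mem_sp hzq))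
      · rw [map_sub, map_smul, smul_eq_mul, hc, div_mul_cancel₀ _ hξz.ne', sub_self]
    by_cases hwC : r - c • z ∈ C
    · exact ⟨r - c • z, of_sp hC haC hwC hw, c • z, smul_fc hC hzC hc0 (self hC hzC), by abel⟩
    · exfalso
      have hcpos : 0 < c := by
        rcases hc0.eq_or_lt with h | h
        · exfalso
          apply hwC
          rw [← h, zero_smul, sub_zero]
          exact hrC
        · exact h
      obtain ⟨s, hs, hu, hu'⟩ := leave hC haC hw hwC
      obtain ⟨u, hudef⟩ : ∃ u : V, u = a + s • (r - c • z) := ⟨_, rfl⟩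
      rw [← hudef] at hu hu'
      have hsum : u + (s * c) • z = a + s • r := by
        rw [hudef, smul_sub, smul_smul]
        abel
      have hsc : 0 < s * c := mul_pos hs hcpos
      have hu0 : u ≠ 0 := by
        intro h0
        rw [h0, zero_add] at hsum
        have h1 := ex_smul hC hz hsc
        obtain ⟨⟨c', hc', h2⟩, -⟩ := ex_add hC h1 haC (hC.smul s hs.le r hrC) hsum.symm
        have ha0 : a ≠ 0 := by
          intro h3
          rw [h3, rk_zero hC] at hr3
          omega
        have haz : a ∈ Fc C z := by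
          rw [h2, smul_smul]
          exact smul_fc hC hzC (mul_nonneg hc' hsc.le) (self hC hzC)
        exact hza (ex_fc hC hz haz ha0)
      have hBd : Bd C a u := ⟨hu, hu0, hu'⟩
      apply H u hBd
      have huC : u ∈ C := hu.1
      have huz : u + z ∈ C := hC.add u huC z hzC
      have h1 : Fc C (u + (s * c) • z) = Fc C (u + z) := by
        have h2 := fc_add_smul hC huC hzC (a := 1) (b := s * c) one_pos hsc
        rwa [one_smul] at h2
      have h2 : a ∈ Fc C (u + z) := by
        rw [← h1, hsum]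
        exact left_fc hC haC (hC.smul s hs.le r hrC)
      have h3 : a + z ∈ Fc C (u + z) := add_fc hC huz h2 (right_fc hC huC hzC)
      exact tra hC huz h3 hmem'

end Pool.Agent.H60.KW.PYR
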