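import Pool.Agent.H61.KW.TB

/-!
# Kuiper board KW, row R1S: a transversal extreme ray
-/

set_option autoImplicit false

open Topology Set
open Pool.Agent.H59 Pool.Agent.H64.LB Pool.Agent.H61.KU Pool.Agent.H61.KV Pool.Agent.H61.KW

namespace Pool.Agent.H60.KW.R1S

/-- a second extreme vector -/
theorem second (h3 : T_XSP) (V : Type) [NormedAddCommGroup V] [NormedSpace ℝ V]
    [FiniteDimensional ℝ V] (C : Set V) (q t : V) (hC : IsCC C) (hq : q ∈ C) (ht : Ex C t)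
    (hr : 2 ≤ rk C q) : ∃ t', Ex C t' ∧ t' ∈ Fc C q ∧ t' ∉ Fc C t := by
  have h1 : Module.finrank ℝ (Submodule.span ℝ {t}) < rk C q := by
    rw [finrank_span_singleton ht.2.1]
    omega
  obtain ⟨t', h4, h5, h6⟩ := h3 V C q (Submodule.span ℝ {t}) hC hq h1
  refine ⟨t', h4, h5, fun h7 => h6 ?_⟩
  obtain ⟨c, -, rfl⟩ := ex_mem hC ht h7
  exact Submodule.smul_mem _ _ (Submodule.mem_span_singleton_self t)

/-- a first extreme vector -/
theorem first (h3 : T_XSP) (V : Type) [NormedAddCommGroup V] [NormedSpace ℝ V]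
    [FiniteDimensional ℝ V] (C : Set V) (q : V) (hC : IsCC C) (hq : q ∈ C)
    (hr : 1 ≤ rk C q) : ∃ t, Ex C t ∧ t ∈ Fc C q := by
  have h1 : Module.finrank ℝ (⊥ : Submodule ℝ V) < rk C q := by
    rw [finrank_bot]
    omega
  obtain ⟨t, h4, h5, -⟩ := h3 V C q ⊥ hC hq h1
  exact ⟨t, h4, h5⟩

theorem pf_R1S (h : T_TFT) (h2 : T_LDE) (h3 : T_XSP) (h4 : T_XOU) : T_R1S := by
  intro V _ _ _ m K q x hq hx hov
  have hC := K.cc
  have hqC := K.mem q hq
  have hq4 := K.rk4 q hq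
  have hT : Tf m q x := K.ovf q x hq (K.ex x hx) hov
  have hx1 : rk (Cn m) x = 1 := ex_rk hC hx
  -- the lower bounds
  have low : ∀ s ∈ Fc (Cn m) q, s ≠ 0 → 4 ≤ rk (Cn m) (x + s) := fun s hs h0 =>
    (h V m K q x s hq hT hs h0).2.2.1
  -- submodularity for two extreme rays
  have pair : ∀ τ t t', τ ∈ Fc (Cn m) q → Ex (Cn m) t → Ex (Cn m) t' → t ∈ Fc (Cn m) τ →
      t' ∈ Fc (Cn m) τ → t' ∉ Fc (Cn m) t →
      rk (Cn m) (x + t) + rk (Cn m) (x + t') + rk (Cn m) τ ≤ 1 + rk (Cn m) (x + τ) + 1 + 1 := by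
    intro τ t t' hτ ht ht' h5 h6 h7
    have h8 := (h2 V m K q x t t' τ hq hT hτ h5 h6
      (fun r hr hr' => ex_meet hC ht.1 ht' h7 hr' hr)).2.2.2.2
    rw [hx1, ex_rk hC ht, ex_rk hC ht'] at h8
    exact h8
  have r9 : rk (Cn m) (x + q) = 9 := by
    have h5 : ∀ t ∈ Fc (Cn m) q, t ∈ Fc (Cn m) (0 : V) → t = 0 := fun t _ ht => fc_of_zero hC ht
    exact (h2 V m K q x q 0 q hq hT (self hC hqC) (self hC hqC) (zero_fc hC hqC) h5).1
  refine ⟨?_, ?_⟩
  · intro t ht htq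
    obtain ⟨t', ht', htq', h5⟩ := second h3 V (Cn m) q t hC hqC ht (by omega)
    have h6 := pair q t t' (self hC hqC) ht ht' htq htq' h5
    have h7 := low t htq ht.2.1
    have h8 := low t' htq' ht'.2.1
    exact (h V m K q x t hq hT htq ht.2.1).2.2.2.1 (by omega)
  · intro s hs
    by_contra hns
    have hsC : s ∈ Cn m := hs.1.1
    have hs2 : 2 ≤ rk (Cn m) s := by
      by_contra h5
      exact hns (ex_of_rk hC hsC hs.2.1 (by omega))
    obtain ⟨t1, ht1, hts1⟩ := first h3 V (Cn m) s hC hsC (by omega)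
    obtain ⟨t2, ht2, hts2, h5⟩ := second h3 V (Cn m) s t1 hC hsC ht1 hs2
    have h6 := pair s t1 t2 hs.1 ht1 ht2 hts1 hts2 h5
    have h7 := low t1 (tra hC hqC hs.1 hts1) ht1.2.1
    have h8 := low t2 (tra hC hqC hs.1 hts2) ht2.2.1
    obtain ⟨u, hu, huq, hus⟩ := h4 V (Cn m) (Fc (Cn m) s) q hC hqC (zero_fc hC hsC)
      (fun a ha b hb => add_fc hC hsC ha hb) hs.2.2
    have h9 := (h2 V m K q x s u q hq hT (self hC hqC) hs.1 huq
      (fun r hr hr' => ex_meet hC hsC hu hus hr' hr)).2.2.2.2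
    have h10 := low u huq hu.2.1
    rw [hx1, ex_rk hC hu, r9, hq4] at h9
    omega

end Pool.Agent.H60.KW.R1S
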