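import Pool.Agent.H61.KW.TA

/-!
# Kuiper board KW, row SH3: the shape theorem, case `rk b = 3`
-/

set_option autoImplicit false

open Set Pool.Agent.H61.KV Pool.Agent.H61.KW

namespace Pool.Agent.H60.KW.SH3

/-- linearly independent extreme vectors in a face -/
theorem indep (h : T_XSP) (V : Type) [NormedAddCommGroup V] [NormedSpace ℝ V]
    [FiniteDimensional ℝ V] (C : Set V) (q : V) (hC : IsCC C) (hq : q ∈ C) :
    ∀ n : ℕ, n ≤ rk C q →
      ∃ x : Fin n → V, LinearIndependent ℝ x ∧ (∀ i, Ex C (x i)) ∧ ∀ i, x i ∈ Fc C q := by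
  intro n
  induction n with
  | zero =>
    intro _
    exact ⟨fun i => i.elim0, linearIndependent_empty_type, fun i => i.elim0, fun i => i.elim0⟩
  | succ n ih =>
    intro hn
    obtain ⟨x, h1, h2, h3⟩ := ih (by omega)
    have h4 : Module.finrank ℝ (Submodule.span ℝ (Set.range x)) < rk C q := by
      have h5 := finrank_range_le_card (R := ℝ) x
      rw [Set.finrank, Fintype.card_fin] at h5
      omega
    obtain ⟨y, hy, hyq, hy'⟩ := h V C q _ hC hq h4
    refine ⟨Fin.cons y x, linearIndependent_finCons.2 ⟨h1, hy'⟩, ?_, ?_⟩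
    · intro i
      refine Fin.cases ?_ ?_ i
      · exact hy
      · exact h2
    · intro i
      refine Fin.cases ?_ ?_ i
      · exact hyq
      · exact h3

/-- the sum over two of three indices -/
theorem sum3 {V : Type} [AddCommMonoid V] (x : Fin 3 → V) (i : Fin 3) :
    ∃ j k : Fin 3, ∑ l ∈ Finset.univ.erase i, x l = x j + x k := by
  have h0 : Finset.univ.erase (0 : Fin 3) = {1, 2} := by decide
  have h1 : Finset.univ.erase (1 : Fin 3) = {0, 2} := by decide
  have h2 : Finset.univ.erase (2 : Fin 3) = {0, 1} := by decide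
  match i with
  | 0 => exact ⟨1, 2, by rw [h0]; exact Finset.sum_pair (by decide)⟩
  | 1 => exact ⟨0, 2, by rw [h1]; exact Finset.sum_pair (by decide)⟩
  | 2 => exact ⟨0, 1, by rw [h2]; exact Finset.sum_pair (by decide)⟩

theorem pf_SH3 (h : T_XSP) (h2 : T_SM2) (h3 : T_THN) (h4 : T_PYR) (h5 : T_DSB) : T_SH3 := by
  intro V _ _ _ C q b B hb3
  have hC := B.cc
  have hq := B.hq
  have hbC : b ∈ C := B.hb.1
  -- (0)
  have h0 : ∀ e ∈ C, rk C e ≤ 2 → b ∉ Fc C e := by
    intro e he h6 h7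
    have := rk_mono hC he h7
    omega
  have hxx : ∀ x, Ex C x → b ∉ Fc C x := by
    intro x hx
    apply h0 x hx.1
    rw [ex_rk hC hx]
    omega
  -- (1)
  have H1 : ∀ x y, Ex C x → Ex C y → x ∈ Fc C q → y ∈ Fc C q → q ∉ Fc C (x + y) :=
    fun x y hx hy hxq hyq => B.ncc x y hx hy hxq hyq (hxx x hx) (hxx y hy)
  -- (2)
  have H2 : ∀ e t, rk C e = 2 → Ex C t → e ∈ Fc C q → t ∈ Fc C q → q ∉ Fc C (e + t) :=
    fun e t he ht heq htq => B.ii2 e t he ht heq htq (h0 e heq.1 he.le) (hxx t ht)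
  -- (3)
  obtain ⟨z, hz, hzq, hzb⟩ : ∃ z, Ex C z ∧ z ∈ Fc C q ∧ z ∉ Fc C b := by
    have h6 : Module.finrank ℝ (Sp C b) < rk C q := by
      have h7 : Module.finrank ℝ (Sp C b) = 3 := hb3
      rw [h7, B.rk4]
      omega
    obtain ⟨z, hz, hzq, hz'⟩ := h V C q (Sp C b) hC hq h6
    exact ⟨z, hz, hzq, fun h8 => hz' (mem_sp h8)⟩
  have hP : Pyr C q b z := by
    refine h4 V C q b z hC hq B.rk4 B.hb hb3 hz hzq hzb ?_
    intro u hu
    have huC : u ∈ C := hu.1.1
    have huq : u ∈ Fc C q := tra hC hq B.hb hu.1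
    have h6 := bd_rk hC hbC hu
    have h7 := rk_pos hC huC hu.2.1
    have h8 : rk C u = 1 ∨ rk C u = 2 := by omega
    rcases h8 with h8 | h8
    · exact H1 u z (ex_of_rk1 hC huC h8) hz huq hzq
    · exact H2 u z h8 hz huq hzq
  obtain ⟨-, -, hD3, -, -, -⟩ := h5 V C b z hC hP.ds
  -- (4)
  have H4 : ∀ x y, Ex C x → Ex C y → x ∈ Fc C b → y ∈ Fc C b → b ∉ Fc C (x + y) := by
    intro x y hx hy hxb hyb hb
    have hzC := hz.1
    have hxC := hx.1
    have hyC := hy.1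
    have hD : Dsum C x z := hD3 x hxb z (self hC hzC)
    obtain ⟨h6, -⟩ := h5 V C x z hC hD
    rw [ex_rk hC hx, ex_rk hC hz] at h6
    have hxq : x ∈ Fc C q := tra hC hq B.hb hxb
    have hyq : y ∈ Fc C q := tra hC hq B.hb hyb
    apply H2 (x + z) y h6 hy (add_fc hC hq hxq hzq) hyq
    have hxz : x + z ∈ C := hC.add x hxC z hzC
    have hE : x + z + y ∈ C := hC.add _ hxz y hyC
    have h7 : x + z ∈ Fc C (x + z + y) := left_fc hC hxz hyC
    have h8 : y ∈ Fc C (x + z + y) := right_fc hC hxz hyC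
    have h9 : x ∈ Fc C (x + z + y) := tra hC hE h7 (left_fc hC hxC hzC)
    have h10 : z ∈ Fc C (x + z + y) := tra hC hE h7 (right_fc hC hxC hzC)
    have h11 : b ∈ Fc C (x + z + y) := tra hC hE (add_fc hC hE h9 h8) hb
    exact tra hC hE (add_fc hC hE h11 h10) hP.mem'
  -- (5)
  obtain ⟨x, hx1, hx2, hx3⟩ := indep h V C b hC hbC 3 hb3.ge
  have hG : Gen C x b := by
    refine h3 V C b 3 x hC hbC hb3 hx1 hx2 hx3 ?_
    intro i
    obtain ⟨j, k, hjk⟩ := sum3 x i
    rw [hjk]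
    exact H4 (x j) (x k) (hx2 j) (hx2 k) (hx3 j) (hx3 k)
  exact (h2 V C q hC hq).2.2.1 b z hP ⟨x, hG⟩

end Pool.Agent.H60.KW.SH3
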