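import Pool.Agent.H61.KW.TC
import Pool.Agent.H60.KW.R1S
import Pool.Agent.H60.KW.SH3

/-!
# Kuiper board KW, row R2B: transversal feet of rank 2, second part
-/

set_option autoImplicit false

open Topology Set
open Pool.Agent.H59 Pool.Agent.H64.LB Pool.Agent.H61.KU Pool.Agent.H61.KV Pool.Agent.H61.KW

namespace Pool.Agent.H60.KW.R2B

/-- linearly independent extreme vectors are pairwise not parallel -/
theorem npar {V : Type} [NormedAddCommGroup V] [NormedSpace ℝ V] [FiniteDimensional ℝ V]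
    {C : Set V} (hC : IsCC C) {n : ℕ} {x : Fin n → V} (hx : LinearIndependent ℝ x)
    (hE : ∀ i, Ex C (x i)) {i j : Fin n} (hij : j ≠ i) : x j ∉ Fc C (x i) := by
  intro h
  have h1 : x j ∉ Submodule.span ℝ (x '' {i}) :=
    hx.notMem_span_image (by simpa using hij)
  apply h1
  obtain ⟨c, -, h2⟩ := ex_mem hC (hE i) h
  rw [image_singleton, h2]
  exact Submodule.smul_mem _ _ (Submodule.mem_span_singleton_self _)

theorem pf_R2B (h : T_TFT) (h2 : T_LDE) (h3 : T_XSP) (h4 : T_XOU) (h5 : T_R2A) (h6 : T_COF)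
    (h8 : T_LDI) (h9 : T_RK2) (h10 : T_PYR) (h11 : T_FIN) : T_R2B := by
  intro V _ _ _ m K S q g hq hT hg2
  have hC := K.cc
  have hqC := K.mem q hq
  have hq4 := K.rk4 q hq
  have hgC := hT.mem
  -- a first extreme vector outside of a face
  have xo : ∀ p s, p ∈ Cn m → s ∈ Cn m → p ∉ Fc (Cn m) s →
      ∃ u, Ex (Cn m) u ∧ u ∈ Fc (Cn m) p ∧ u ∉ Fc (Cn m) s := fun p s hp hs hps =>
    h4 V (Cn m) (Fc (Cn m) s) p hC hp (zero_fc hC hs) (fun a ha b hb => add_fc hC hs ha hb) hps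
  -- (1)
  have H1 : ∀ u, Ex (Cn m) u → u ∈ Fc (Cn m) q → Ef m (g + u) ∧ rk (Cn m) (g + u) = 4 :=
    fun u hu huq => h5 V m K q g u hq hT hg2 hu huq
  -- (2)
  have H2 : ∀ s u, Ex (Cn m) s → Ex (Cn m) u → s ∈ Fc (Cn m) q → u ∈ Fc (Cn m) q →
      q ∉ Fc (Cn m) (s + u) := by
    intro s u hs hu hsq huq hqs
    have h12 := (H1 u hu huq).1
    have h13 : Ov (Cn m) q (g + u) := (h V m K q g u hq hT huq hu.2.1).2.2.2.2.1
    exact (h6 V m K S q (g + u) u s hq h12 h13 huq (right_fc hC hgC hu.1) hsq hqs).2 hs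
  have r9 : rk (Cn m) (g + q) = 9 := by
    have h12 : ∀ t ∈ Fc (Cn m) q, t ∈ Fc (Cn m) (0 : V) → t = 0 := fun t _ ht => fc_of_zero hC ht
    exact (h2 V m K q g q 0 q hq hT (self hC hqC) (self hC hqC) (zero_fc hC hqC) h12).1
  -- submodularity
  have sub : ∀ τ s s', τ ∈ Fc (Cn m) q → s ∈ Fc (Cn m) τ → s' ∈ Fc (Cn m) τ →
      (∀ t ∈ Fc (Cn m) s, t ∈ Fc (Cn m) s' → t = 0) →
      rk (Cn m) (g + s) + rk (Cn m) (g + s') + rk (Cn m) τ ≤
        2 + rk (Cn m) (g + τ) + rk (Cn m) s + rk (Cn m) s' := by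
    intro τ s s' h12 h13 h14 h15
    have h16 := (h2 V m K q g s s' τ hq hT h12 h13 h14 h15).2.2.2.2
    rwa [hg2] at h16
  -- (3)
  have H3 : ∀ s ∈ Fc (Cn m) q, q ∉ Fc (Cn m) s → 2 ≤ rk (Cn m) s →
      rk (Cn m) (g + s) = 4 + rk (Cn m) s := by
    intro s hs hqs hs2
    have hsC : s ∈ Cn m := hs.1
    obtain ⟨u1, hu1, hsu1⟩ := R1S.first h3 V (Cn m) s hC hsC (by omega)
    obtain ⟨u2, hu2, hsu2, h12⟩ := R1S.second h3 V (Cn m) s u1 hC hsC hu1 hs2
    have h13 := sub s u1 u2 hs hsu1 hsu2 (fun r hr hr' => ex_meet hC hu1.1 hu2 h12 hr' hr)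
    rw [(H1 u1 hu1 (tra hC hqC hs hsu1)).2, (H1 u2 hu2 (tra hC hqC hs hsu2)).2, ex_rk hC hu1,
      ex_rk hC hu2] at h13
    obtain ⟨u, hu, huq, hus⟩ := xo q s hqC hsC hqs
    have h14 := sub q s u (self hC hqC) hs huq (fun r hr hr' => ex_meet hC hsC hu hus hr' hr)
    rw [(H1 u hu huq).2, ex_rk hC hu, r9, hq4] at h14
    omega
  -- (4)
  have H4 : ∀ s s', s ∈ Fc (Cn m) q → s' ∈ Fc (Cn m) q → q ∉ Fc (Cn m) s → q ∉ Fc (Cn m) s' →
      2 ≤ rk (Cn m) s → 2 ≤ rk (Cn m) s' →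
      ∃ w, Ex (Cn m) w ∧ w ∈ Fc (Cn m) s ∧ w ∈ Fc (Cn m) s' := by
    intro s s' hs hs' hqs hqs' h12 h13
    by_contra h14
    have h15 : ∀ t ∈ Fc (Cn m) s, t ∈ Fc (Cn m) s' → t = 0 := by
      intro t ht ht'
      by_contra h0
      obtain ⟨w, hw, hwt, -⟩ := xo t 0 ht.1 hC.zero (fun h16 => h0 (fc_of_zero hC h16))
      exact h14 ⟨w, hw, tra hC hs.1 ht hwt, tra hC hs'.1 ht' hwt⟩
    have h16 := sub q s s' (self hC hqC) hs hs' h15
    rw [H3 s hs hqs h12, H3 s' hs' hqs' h13, r9, hq4] at h16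
    omega
  -- (5)
  obtain ⟨a, ha, ha3⟩ : ∃ a ∈ Fc (Cn m) q, rk (Cn m) a = 3 := by
    by_contra h12
    push Not at h12
    obtain ⟨x, hx1, hx2, hx3⟩ := SH3.indep h3 V (Cn m) q hC hqC 4 hq4.ge
    have hnp : ∀ i j : Fin 4, j ≠ i → x j ∉ Fc (Cn m) (x i) := fun i j hij => npar hC hx1 hx2 hij
    have hr2 : ∀ i j : Fin 4, j ≠ i → rk (Cn m) (x i + x j) = 2 := by
      intro i j hij
      have h13 := rk_add_ex hC (hx2 i).1 (hx2 j).1 (hnp i j hij)
      rw [ex_rk hC (hx2 i)] at h13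
      have h14 : x i + x j ∈ Fc (Cn m) q := add_fc hC hqC (hx3 i) (hx3 j)
      have h15 := rk_lt hC hqC h14 (H2 (x i) (x j) (hx2 i) (hx2 j) (hx3 i) (hx3 j))
      have h16 := h12 _ h14
      omega
    have h01 := hr2 0 1 (by decide)
    have h23 := hr2 2 3 (by decide)
    obtain ⟨w, hw, hw1, hw2⟩ := H4 (x 0 + x 1) (x 2 + x 3)
      (add_fc hC hqC (hx3 0) (hx3 1)) (add_fc hC hqC (hx3 2) (hx3 3))
      (H2 _ _ (hx2 0) (hx2 1) (hx3 0) (hx3 1)) (H2 _ _ (hx2 2) (hx2 3) (hx3 2) (hx3 3))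
      h01.ge h23.ge
    obtain ⟨hR, -⟩ := h9 V (Cn m) hC
    have hw1' := hR (x 0) (x 1) (hx2 0) (hx2 1) (hnp 0 1 (by decide)) h01 w hw hw1
    have hw2' := hR (x 2) (x 3) (hx2 2) (hx2 3) (hnp 2 3 (by decide)) h23 w hw hw2
    have key : ∀ i j : Fin 4, j ≠ i → w ∈ Fc (Cn m) (x i) → w ∈ Fc (Cn m) (x j) → False := by
      intro i j hij hi hj
      exact hnp i j hij (tra hC (hx2 i).1 hi (ex_symm hC (hx2 j) hw hj))
    rcases hw1' with h13 | h13 <;> rcases hw2' with h14 | h14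
    · exact key 0 2 (by decide) h13 h14
    · exact key 0 3 (by decide) h13 h14
    · exact key 1 2 (by decide) h13 h14
    · exact key 1 3 (by decide) h13 h14
  have haC : a ∈ Cn m := ha.1
  have hqa : q ∉ Fc (Cn m) a := by
    intro h12
    have := rk_mono hC haC h12
    omega
  obtain ⟨z, hz, hzq, hza⟩ := xo q a hqC haC hqa
  -- (6)
  have H6 : ∀ u ∈ Fc (Cn m) a, rk (Cn m) u ≠ 2 := by
    intro u hu hu2
    have huC : u ∈ Cn m := hu.1
    have huq : u ∈ Fc (Cn m) q := tra hC hqC ha hu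
    have hqu : q ∉ Fc (Cn m) u := by
      intro h12
      have := rk_mono hC huC h12
      omega
    have hau : a ∉ Fc (Cn m) u := by
      intro h12
      have := rk_mono hC huC h12
      omega
    obtain ⟨w, hw, hwa, hwu⟩ := xo a u haC huC hau
    have hwq : w ∈ Fc (Cn m) q := tra hC hqC ha hwa
    have hzw : z ∉ Fc (Cn m) w := fun h12 => hza (tra hC haC hwa h12)
    have hB2 := rk_add_ex hC hw.1 hz.1 hzw
    rw [ex_rk hC hw] at hB2
    have hBC : w + z ∈ Cn m := hC.add w hw.1 z hz.1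
    have hBq : w + z ∈ Fc (Cn m) q := add_fc hC hqC hwq hzq
    have hqB : q ∉ Fc (Cn m) (w + z) := H2 w z hw hz hwq hzq
    obtain ⟨y, hy, hyB, hyu⟩ := H4 (w + z) u hBq huq hqB hqu (by omega) hu2.ge
    have hyw : y ∉ Fc (Cn m) w := by
      intro h12
      exact hwu (tra hC huC hyu (ex_symm hC hw hy h12))
    have hya : y ∈ Fc (Cn m) a := tra hC haC hu hyu
    have hwB : w ∈ Fc (Cn m) (w + z) := left_fc hC hw.1 hz.1
    have hzB : z ∈ Fc (Cn m) (w + z) := right_fc hC hw.1 hz.1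
    have hs1 := rk_add_ex hC hw.1 hy.1 hyw
    rw [ex_rk hC hw] at hs1
    have hsC : w + y ∈ Cn m := hC.add w hw.1 y hy.1
    have hsa : w + y ∈ Fc (Cn m) a := add_fc hC haC hwa hya
    have hsB : w + y ∈ Fc (Cn m) (w + z) := add_fc hC hBC hwB hyB
    have hs2 := rk_mono hC haC hsa
    have hs3 : rk (Cn m) (w + y) ≠ 3 := by
      intro h12
      have h13 : a ∈ Fc (Cn m) (w + y) := of_rk hC haC hsa (by omega)
      have h14 : a ∈ Fc (Cn m) (w + z) := tra hC hBC hsB h13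
      have h15 : a + z ∈ Fc (Cn m) (w + z) := add_fc hC hBC h14 hzB
      have h16 := rk_add_ex hC haC hz.1 hza
      have h17 := rk_mono hC hBC h15
      exact hqB (of_rk hC hqC hBq (by omega))
    have hs4 : rk (Cn m) (w + y) = 2 := by omega
    have hwys : w ∈ Fc (Cn m) (w + y) := left_fc hC hw.1 hy.1
    have hqs : q ∉ Fc (Cn m) (w + y) := by
      intro h12
      have := rk_mono hC hsC h12
      omega
    obtain ⟨r, hrC, hr⟩ := h11 V (Cn m) u (w + y) hC huC hsC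
    obtain ⟨hru, hrs⟩ := (hr r).1 (self hC hrC)
    have hr1 := rk_mono hC hsC hrs
    have hr2 : rk (Cn m) r ≠ 2 := by
      intro h12
      have h13 : w + y ∈ Fc (Cn m) r := of_rk hC hsC hrs (by omega)
      exact hwu ((hr w).1 (tra hC hrC h13 hwys)).1
    have h12 := h8 V (Cn m) q g a u (w + y) r hC (K.ftd q hq) hgC hT.foot ha hu hsa hrC hr
    rw [H3 u huq hqu hu2.ge, H3 (w + y) (tra hC hqC ha hsa) hqs hs4.ge, H3 a ha hqa (by omega),
      hu2, hs4, ha3] at h12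
    have h13 : rk (Cn m) r = 0 ∨ rk (Cn m) r = 1 := by omega
    rcases h13 with h13 | h13
    · have h14 := eq_zero_of_rk hC hrC h13
      rw [h14, add_zero, hg2, rk_zero hC] at h12
      omega
    · have h14 := ex_of_rk1 hC hrC h13
      rw [(H1 r h14 (tra hC hqC huq hru)).2, h13] at h12
      omega
  -- (7)
  have hS : Scx (Cn m) a := by
    intro s hs
    have h12 := bd_rk hC haC hs
    have h13 := rk_pos hC hs.1.1 hs.2.1
    have h14 := H6 s hs.1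
    exact ex_of_rk1 hC hs.1.1 (by omega)
  refine ⟨a, z, h10 V (Cn m) q a z hC hqC hq4 ha ha3 hz hzq hza ?_, hS⟩
  intro u hu
  exact H2 u z (hS u hu) hz (tra hC hqC ha hu.1) hzq

end Pool.Agent.H60.KW.R2B
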